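import Mathlib
import Pool.Agent.Results.MP_671173_al.NotPolynomial

/-!
The non-commuting number `ω(UU_n(F_q))` is not, for every `n ≥ 4`, a single polynomial in `q` for
large `q`: it fails for `n = 4`. This uses the values and bounds of `ω(UU_4(F_q))` proved in
`Pool.Agent.Results.MP_671173_al.NotPolynomial`.
-/

set_option autoImplicit false

namespace Pool.Agent.Results.MP_55cbc6_al.NotPolynomialForAllN

open Pool.Agent.Results.MP_671173_al.NotPolynomial (ncNumber UU4)

/-- `UU_n(F)`: the `n × n` upper-triangular matrices over `F` with all diagonal entries `1`, under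
matrix multiplication (a submonoid of the matrix ring which is a group). -/
def UU (n : ℕ) (F : Type*) [Field F] : Submonoid (Matrix (Fin n) (Fin n) F) where
  carrier := {M | (∀ i, M i i = 1) ∧ ∀ i j, j < i → M i j = 0}
  one_mem' := ⟨fun i => by simp, fun i j h => by simp [h.ne']⟩
  mul_mem' := by
    rintro M N ⟨hM1, hM2⟩ ⟨hN1, hN2⟩
    refine ⟨?_, ?_⟩
    · intro i
      rw [Matrix.mul_apply, Finset.sum_eq_single i]
      · rw [hM1, hN1, one_mul]
      · intro j _ hj
        rcases lt_or_gt_of_ne hj with h | h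
        · rw [hM2 i j h, zero_mul]
        · rw [hN2 j i h, mul_zero]
      · simp
    · intro i j h
      rw [Matrix.mul_apply]
      apply Finset.sum_eq_zero
      intro k _
      rcases lt_or_ge k i with h1 | h1
      · rw [hM2 i k h1, zero_mul]
      · rw [hN2 k j (lt_of_lt_of_le h h1), mul_zero]

/-- `ω(UU_n(F_q))` is a single polynomial in `q` for large `q`: there are a polynomial `P` with real
coefficients and a bound `q0` with `ω(UU_n(F)) = P(q)` for every prime power `q ≥ q0` and every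
field `F` with `q` elements. -/
def SinglePolynomialForLargeQ (n : ℕ) : Prop :=
  ∃ (P : Polynomial ℝ) (q0 : ℕ), ∀ q : ℕ, q0 ≤ q → IsPrimePow q →
    ∀ (F : Type) [Field F] [Fintype F], Fintype.card F = q →
      (ncNumber (UU n F) : ℝ) = P.eval (q : ℝ)

/-- The case `n = 4`. -/
theorem four : ¬ SinglePolynomialForLargeQ 4 := by
  have hE := Pool.Agent.Results.MP_671173_al.NotPolynomial.result.1
  have hO := Pool.Agent.Results.MP_671173_al.NotPolynomial.result.2.1
  rintro ⟨P, q0, hP'⟩
  have hP : ∀ q : ℕ, q0 ≤ q → IsPrimePow q →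
      ∀ (F : Type) [Field F] [Fintype F], Fintype.card F = q →
        (ncNumber (UU4 F) : ℝ) = P.eval (q : ℝ) := hP'
  have hP2 : ∀ n : ℕ, q0 ≤ n → n ≠ 0 → P.eval ((2 ^ n : ℕ) : ℝ) =
      (Polynomial.X ^ 3 + Polynomial.X ^ 2 - Polynomial.X + 1 : Polynomial ℝ).eval
        ((2 ^ n : ℕ) : ℝ) := by
    intro n hn hn0
    have hfin : Fintype (GaloisField 2 n) := Fintype.ofFinite _
    have hcard : Fintype.card (GaloisField 2 n) = 2 ^ n := by
      rw [← Nat.card_eq_fintype_card]; exact GaloisField.card 2 n hn0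
    have hle : q0 ≤ 2 ^ n := hn.trans (Nat.lt_two_pow_self).le
    have h1 := hP (2 ^ n) hle ((Nat.prime_two.isPrimePow).pow hn0) (GaloisField 2 n) hcard
    have h2 : (2 : GaloisField 2 n) = 0 := by exact_mod_cast CharP.cast_eq_zero (GaloisField 2 n) 2
    have h3 := hE (GaloisField 2 n) h2
    rw [hcard] at h3
    rw [← h1]
    have h4 : (ncNumber (UU4 (GaloisField 2 n)) : ℝ) + ((2 ^ n : ℕ) : ℝ) =
        ((2 ^ n : ℕ) : ℝ) ^ 3 + ((2 ^ n : ℕ) : ℝ) ^ 2 + 1 := by exact_mod_cast h3
    simp only [Polynomial.eval_add, Polynomial.eval_sub, Polynomial.eval_pow, Polynomial.eval_X,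
      Polynomial.eval_one]
    linarith
  have hPoly : P = Polynomial.X ^ 3 + Polynomial.X ^ 2 - Polynomial.X + 1 := by
    apply Polynomial.eq_of_infinite_eval_eq
    have hinf : (Set.range fun n : ℕ => ((2 ^ (n + q0 + 1) : ℕ) : ℝ)).Infinite := by
      apply Set.infinite_range_of_injective
      intro a b hab
      have hab' : ((2 ^ (a + q0 + 1) : ℕ) : ℝ) = ((2 ^ (b + q0 + 1) : ℕ) : ℝ) := hab
      have h1 : 2 ^ (a + q0 + 1) = 2 ^ (b + q0 + 1) := Nat.cast_injective hab'
      have h2 := Nat.pow_right_injective (le_refl 2) h1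
      omega
    apply hinf.mono
    rintro _ ⟨n, rfl⟩
    exact hP2 (n + q0 + 1) (by omega) (by omega)
  have hp3 : Fact (Nat.Prime 3) := ⟨Nat.prime_three⟩
  set n := q0 + 1 with hn
  have hfin : Fintype (GaloisField 3 n) := Fintype.ofFinite _
  have hcard : Fintype.card (GaloisField 3 n) = 3 ^ n := by
    rw [← Nat.card_eq_fintype_card]; exact GaloisField.card 3 n (by omega)
  have hle : q0 ≤ 3 ^ n := by
    have : n < 3 ^ n := Nat.lt_pow_self (by norm_num)
    omega
  have h1 := hP (3 ^ n) hle ((Nat.prime_three.isPrimePow).pow (by omega)) (GaloisField 3 n) hcard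
  have h2 : (2 : GaloisField 3 n) ≠ 0 := by
    intro h
    have h3 : (3 : GaloisField 3 n) = 0 := by
      exact_mod_cast CharP.cast_eq_zero (GaloisField 3 n) 3
    apply one_ne_zero (α := GaloisField 3 n)
    linear_combination h3 - h
  have h3 := hO (GaloisField 3 n) h2
  rw [hcard] at h3
  rw [hPoly] at h1
  simp only [Polynomial.eval_add, Polynomial.eval_sub, Polynomial.eval_pow, Polynomial.eval_X,
      Polynomial.eval_one] at h1
  have h4 : (ncNumber (UU4 (GaloisField 3 n)) : ℝ) + ((3 ^ n : ℕ) : ℝ) ≤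
        ((3 ^ n : ℕ) : ℝ) ^ 3 + ((3 ^ n : ℕ) : ℝ) ^ 2 := by exact_mod_cast h3
  linarith

/-- It is not true that `ω(UU_n(F_q))` is a single polynomial in `q` for large `q` for every
`n ≥ 4`; it fails for `n = 4`. -/
theorem result : ¬ SinglePolynomialForLargeQ 4 ∧ ¬ ∀ n : ℕ, 4 ≤ n → SinglePolynomialForLargeQ n :=
  ⟨four, fun h => four (h 4 le_rfl)⟩

end Pool.Agent.Results.MP_55cbc6_al.NotPolynomialForAllN
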